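import Pool.Agent.Lib.MP_ab8df0_nt.A.L2.Def

/-! Small primes. -/

namespace Pool.Agent.Lib.MP_ab8df0_nt.A.L2

open Pool.Agent.Lib.MP_ab8df0_nt.A

theorem a0 : CovA fl 6 3054 m 5 ρ 0 (0 + 56) := covA _ _ _ _ _ _ _ _
  [(0, []),
  (0, [⟨[4, 2, 4, 2], 1, 4, [4, 3, 1, 2], [24, -55, -66, 555, 66, -653, 126, 613, -150, -147, 6, -13]⟩, ⟨[1, 0, 0, 3], 1, 4, [1, 4, 3, 1], [4, 65, 182, 330, 284, 50, 80, 334, 334, 105, 16, 7]⟩, ⟨[1, 2, 0, 0], 1, 4, [2, 2, 2, 2], [2, -47, 238, 705, -344, -752, 586, 662, -370, -216, -4, -19]⟩]),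
  (0, [⟨[6, 1, 5, 5, 5, 1], 1, 5, [4, 1, 5, 1, 3], []⟩, ⟨[6, 6, 3, 3, 3, 6], 1, 5, [2, 4, 6, 6, 6, 2], []⟩]),
  (0, [⟨[3, 7, 4, 3], 1, 4, [10, 10, 10, 5], []⟩, ⟨[4, 10, 6, 5], 1, 4, [10, 0, 5, 2], []⟩, ⟨[10, 3, 6, 3], 1, 4, [5, 4, 8, 10], []⟩]),
  (0, [⟨[4, 11, 10], 1, 3, [5, 2, 6], [12, -100, -139, 520, 195, -566, 6, 505, -11, -73, 9, -7]⟩, ⟨[10, 4, 7], 1, 3, [5, 1, 6], [18, 41, 27, 293, -77, -359, 216, 340, -183, -116, -1, -10]⟩, ⟨[8, 1, 1], 1, 3, [7, 3, 5], [-29, -13, -142, -141, 433, 330, -388, -140, 433, 186, 14, 15]⟩, ⟨[5, 8, 8], 1, 3, [11, 9, 6], [-7, 33, 116, 12, -449, -230, 346, 6, -425, -165, -16, -13]⟩]),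
  (0, [⟨[9], 1, 1, [1], [-5, -4, 45, -43, -114, 22, 56, -47, -54, -14, -3, -1]⟩, ⟨[2], 1, 1, [1], [-19, 59, -9, -98, 96, 109, -110, -20, 72, 23, 3, 2]⟩, ⟨[10, 12], 1, 2, [13, 12], [37, -24, 147, 545, -318, -660, 497, 534, -381, -209, -6, -18]⟩, ⟨[12, 9], 1, 2, [6, 10], [-13, 36, 114, 283, 273, 0, -11, 294, 300, 89, 15, 6]⟩, ⟨[16, 10], 1, 2, [4, 6], [0, 37, 175, 453, 35, -283, 264, 467, 11, -45, 7, -5]⟩, ⟨[4, 12], 1, 2, [9, 7], [32, 17, 207, 298, -77, -156, 283, 268, -18, -25, 2, -3]⟩, ⟨[13, 14], 1, 2, [15, 10], [16, 117, 92, 221, 162, -56, 65, 318, 103, -2, 9, -1]⟩]),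
  (0, [⟨[18, 8, 5, 0, 5, 8], 1, 3, [9, 2, 4, 14, 3, 13], []⟩, ⟨[18, 11, 14, 16, 14, 11], 1, 3, [0, 16, 18, 14, 10, 14], []⟩]),
  (0, [⟨[5], 1, 1, [1], [18, -17, -98, -123, -208, -145, 39, -100, -283, -108, -11, -8]⟩, ⟨[14], 1, 1, [1], [18, 20, 77, 330, -173, -428, 303, 367, -272, -153, -4, -13]⟩, ⟨[19, 16], 1, 2, [20, 9], [25, 44, -20, -284, -318, 55, 92, -248, -313, -100, -15, -7]⟩, ⟨[17, 4], 1, 2, [11, 6], [-1, 41, -117, -478, 413, 676, -494, -461, 468, 238, 10, 20]⟩, ⟨[13, 22], 1, 2, [13, 3], [4, -80, 25, 428, -198, -557, 263, 392, -262, -152, -3, -13]⟩, ⟨[16, 16], 1, 2, [15, 1], [4, 97, 129, -436, -134, 544, -1, -463, 54, 88, -7, 8]⟩, ⟨[22, 15], 1, 2, [6, 13], [8, 58, 202, -258, -131, 424, 109, -310, 95, 96, -4, 8]⟩]),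
  (5, []),
  (0, [⟨[10, 9, 7, 8], 1, 3, [11, 28, 9, 23], []⟩, ⟨[3, 5, 8, 2], 1, 3, [13, 17, 21, 18], []⟩, ⟨[28, 19, 5, 19], 1, 3, [26, 4, 4, 16], []⟩]),
  (0, [⟨[30, 18, 25, 18, 25, 18], 1, 3, [19, 25, 18, 9, 17, 2], []⟩, ⟨[30, 13, 11, 22, 11, 13], 1, 3, [16, 18, 7, 29, 22, 22], []⟩]),
  (5, []),
  (0, [⟨[32, 34, 34], 1, 3, [3, 3], []⟩, ⟨[12, 17, 34], 1, 3, [25, 11, 30], []⟩, ⟨[22, 29, 29], 1, 3, [29, 22, 35], []⟩, ⟨[34, 28, 14], 1, 3, [2, 36, 20], []⟩]),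
  (0, [⟨[21, 1, 5, 25], 1, 3, [16, 19, 35, 17], []⟩, ⟨[2, 32, 31, 39], 1, 3, [12, 16, 16], []⟩, ⟨[40, 18, 29, 18], 1, 3, [8, 35, 33, 23], []⟩]),
  (0, [⟨[42, 20, 24, 36, 24, 20], 1, 3, [32, 27, 28, 17, 19, 28], []⟩, ⟨[42, 23, 37, 34, 37, 23], 1, 3, [8, 10, 7, 19, 39, 19], []⟩]),
  (0, [⟨[46, 30, 38, 30], 1, 3, [17, 43, 43, 17], []⟩, ⟨[7, 37, 21, 29], 1, 3, [14, 27, 17, 44], []⟩, ⟨[27, 16, 44, 35], 1, 3, [25, 8, 40, 43], []⟩]),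
  (7, []),
  (0, [⟨[18, 11, 52, 38], 1, 3, [21, 39, 11, 6], []⟩, ⟨[3, 45, 3, 20], 1, 3, [26, 2, 15, 46], []⟩, ⟨[52, 48, 32, 48], 1, 3, [29, 6, 19, 49], []⟩]),
  (5, [])] (by decide +kernel)

theorem ra {F : Type*} [Field F] [NumberField F] {α : NumberField.RingOfIntegers F} (h : Gen α fl) :
    Range F 6 3054 0 56 :=
  have hs : splitOK fl m 5 ρ = true := by decide +kernel
  a0.range h hs


end Pool.Agent.Lib.MP_ab8df0_nt.A.L2
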